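import Mathlib
import Pool.Agent.H64.FG.Basic

/-!
# The Fabrikowski-Gupta group has exponential geodesic growth

The group acts on the ternary rooted tree, whose vertices are the finite words in `0, 1, 2`. It is generated by
the rooted automorphism `a`, which adds `1` to the first letter, and by the directed automorphism
`b = (a, 1, b)`. The generating set is `S = {a, a⁻¹, b, b⁻¹}`.

All products of the words `(a b)³` and `(a⁻¹ b)³` are geodesic, once their first letter is removed. The proof:
let `w` be such a product of `m` factors. A letter `b` of a word contributes a letter `a` to one of its three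
sections and a letter `b` to another one. Two of the sections of `w` are `(a b) ^ m` and `(b a) ^ m`, for all
`m`-fold products; every word for `(a b) ^ m` contains at least `m` letters `a^±` and `m` letters `b^±`, and
this gives `3 m` letters `b^±` in every word for `w`.
-/

set_option autoImplicit false

namespace Pool.Agent.Results.MP_bf8038_al.FabrikowskiGupta

open Pool.Agent.H64.FG

/-- `w` is a geodesic word over `S`: no shorter word over `S` has the same value. -/
def IsGeodesic {G : Type} [Group G] (S : Set G) (w : List G) : Prop :=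
  (∀ s ∈ w, s ∈ S) ∧ ∀ v : List G, (∀ s ∈ v, s ∈ S) → v.prod = w.prod → w.length ≤ v.length

/-- The geodesic growth function: the number of geodesic words over `S` of length at most `n`. -/
noncomputable def geodesicGrowth {G : Type} [Group G] (S : Set G) (n : ℕ) : ℕ :=
  {w : List G | IsGeodesic S w ∧ w.length ≤ n}.ncard

/-- The Fabrikowski-Gupta group. -/
def FGroup : Subgroup (Equiv.Perm V) := Subgroup.closure {a, b}

/-- The generator `a`. -/
def ga : FGroup := ⟨a, Subgroup.subset_closure (by simp)⟩

/-- The generator `b = (a, 1, b)`. -/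
def gb : FGroup := ⟨b, Subgroup.subset_closure (by simp)⟩

/-- The generating set. -/
def S : Set FGroup := {ga, ga⁻¹, gb, gb⁻¹}

/-- value of a letter in the group -/
def gval : Lt → FGroup
  | .A s => if s then ga else ga⁻¹
  | .B s => if s then gb else gb⁻¹

lemma coe_gval (c : Lt) : ((gval c : FGroup) : Equiv.Perm V) = val c := by
  cases c with
  | A s => cases s <;> rfl
  | B s => cases s <;> rfl

lemma gval_mem (c : Lt) : gval c ∈ S := by
  cases c with
  | A s => cases s <;> simp [gval, S]
  | B s => cases s <;> simp [gval, S]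

lemma exists_gval {g : FGroup} (h : g ∈ S) : ∃ c, gval c = g := by
  rcases h with h | h | h | h
  · exact ⟨.A true, by rw [h]; rfl⟩
  · exact ⟨.A false, by rw [h]; rfl⟩
  · exact ⟨.B true, by rw [h]; rfl⟩
  · exact ⟨.B false, by rw [h]; rfl⟩

lemma exists_list {v : List FGroup} (h : ∀ s ∈ v, s ∈ S) : ∃ l : List Lt, l.map gval = v := by
  induction v with
  | nil => exact ⟨[], rfl⟩
  | cons g v ih =>
    obtain ⟨c, hc⟩ := exists_gval (h g (by simp))
    obtain ⟨l, hl⟩ := ih fun s hs => h s (by simp [hs])
    exact ⟨c :: l, by simp [hc, hl]⟩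

lemma coe_prod (l : List Lt) : (((l.map gval).prod : FGroup) : Equiv.Perm V) = ev l := by
  induction l with
  | nil => rfl
  | cons c l ih =>
    rw [List.map_cons, List.prod_cons, Subgroup.coe_mul, ih, coe_gval, ev_cons]

/-- action on the word `00` -/
lemma val_test : Function.Injective fun c : Lt => (val c ([0, 0] : V)) := by
  intro c c' h
  simp only at h
  cases c with
  | A s =>
    cases c' with
    | A s' =>
      rw [val_A, val_A] at h
      revert h; revert s s'; decide
    | B s' =>
      rw [val_A, val_B] at h
      revert h; revert s s'; decide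
  | B s =>
    cases c' with
    | A s' =>
      rw [val_B, val_A] at h
      revert h; revert s s'; decide
    | B s' =>
      rw [val_B, val_B] at h
      revert h; revert s s'; decide

lemma gval_injective : Function.Injective gval := by
  intro c c' h
  apply val_test
  simp only
  rw [← coe_gval, ← coe_gval, h]

lemma geodesic_wt (c : List Bool) : IsGeodesic S ((wt c).map gval) := by
  refine ⟨?_, ?_⟩
  · intro s hs
    obtain ⟨x, -, rfl⟩ := List.mem_map.mp hs
    exact gval_mem x
  · intro v hv h
    obtain ⟨l, rfl⟩ := exists_list hv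
    rw [List.length_map, List.length_map]
    apply wt_shortest
    rw [← coe_prod, ← coe_prod, h]

lemma finite_words (n : ℕ) : {w : List FGroup | IsGeodesic S w ∧ w.length ≤ n}.Finite := by
  have hS : S.Finite := by unfold S; exact Set.toFinite _
  have h1 : {w : List FGroup | (∀ s ∈ w, s ∈ S) ∧ w.length ≤ n}.Finite := by
    have := hS.to_subtype
    have h2 : (Set.range fun w : {w : List S // w.length ≤ n} => (w.1.map Subtype.val)).Finite := by
      have : Finite {w : List S // w.length ≤ n} := (List.finite_length_le S n).to_subtype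
      exact Set.finite_range _
    refine h2.subset ?_
    rintro w ⟨hw1, hw2⟩
    refine ⟨⟨w.attach.map fun x => ⟨x.1, hw1 x.1 x.2⟩, by simpa using hw2⟩, ?_⟩
    simp only [List.map_map]
    exact w.attach_map_subtype_val
  exact h1.subset fun w hw => ⟨hw.1.1, hw.2⟩

lemma exists_inv (l : List Lt) : ∃ l' : List Lt, ev l' = (ev l)⁻¹ := by
  induction l with
  | nil => exact ⟨[], by simp⟩
  | cons c l ih =>
    obtain ⟨l', hl'⟩ := ih
    have hc : ∃ c', val c' = (val c)⁻¹ := by
      cases c with
      | A s =>
        cases s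
        · exact ⟨.A true, by simp [val]⟩
        · exact ⟨.A false, by simp [val]⟩
      | B s =>
        cases s
        · exact ⟨.B true, by simp [val]⟩
        · exact ⟨.B false, by simp [val]⟩
    obtain ⟨c', hc'⟩ := hc
    exact ⟨l' ++ [c'], by simp [hl', hc']⟩

lemma growth_ge (m : ℕ) : 2 ^ m ≤ geodesicGrowth S (6 * m - 1) := by
  let f : (Fin m → Bool) → List FGroup := fun c => (wt (List.ofFn c)).map gval
  have hf : Function.Injective f := by
    intro c c' h
    have h1 : wt (List.ofFn c) = wt (List.ofFn c') := List.map_injective_iff.mpr gval_injective h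
    exact List.ofFn_injective (wt_injective h1 (by simp))
  have h1 : (Set.range f).ncard = 2 ^ m := by
    rw [← Set.image_univ, Set.ncard_image_of_injective _ hf, Set.ncard_univ]
    simp
  rw [← h1, geodesicGrowth]
  apply Set.ncard_le_ncard _ (finite_words _)
  rintro _ ⟨c, rfl⟩
  refine ⟨geodesic_wt _, ?_⟩
  simp only [f, List.length_map]
  rw [wt, List.length_tail, length_ww, List.length_ofFn]

lemma growth_mono {m n : ℕ} (h : m ≤ n) : geodesicGrowth S m ≤ geodesicGrowth S n :=
  Set.ncard_le_ncard (fun _ hw => ⟨hw.1, hw.2.trans h⟩) (finite_words n)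

lemma growth_pos (n : ℕ) : 1 ≤ geodesicGrowth S n := by
  have := growth_ge 0
  simpa using this.trans (growth_mono (Nat.zero_le n))

/-- **Exponential geodesic growth of the Fabrikowski-Gupta group.** The set `S = {a, a⁻¹, b, b⁻¹}` generates the
Fabrikowski-Gupta group `⟨a, b⟩`, `b = (a, 1, b)`, as a monoid, there are at least `2 ^ m` geodesic words over
`S` of length at most `6 m - 1`, and so the number of geodesic words of length at most `n` is at least
`c ^ n / 2` for a constant `c > 1`. -/
theorem result :
    (∀ g : FGroup, ∃ w : List FGroup, (∀ s ∈ w, s ∈ S) ∧ w.prod = g) ∧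
    (∀ m : ℕ, 2 ^ m ≤ geodesicGrowth S (6 * m - 1)) ∧
    ∃ c : ℝ, 1 < c ∧ ∀ n : ℕ, c ^ n ≤ 2 * (geodesicGrowth S n : ℝ) := by
  refine ⟨?_, growth_ge, (2 : ℝ) ^ (1 / 6 : ℝ), Real.one_lt_rpow (by norm_num) (by norm_num), ?_⟩
  · rintro ⟨g, hg⟩
    have key : ∃ l : List Lt, ev l = g := by
      induction hg using Subgroup.closure_induction with
      | mem x hx =>
        rcases hx with h | h
        · exact ⟨[.A true], by rw [h]; simp [val]⟩
        · exact ⟨[.B true], by rw [h]; simp [val]⟩
      | one => exact ⟨[], rfl⟩
      | mul x y _ _ hx hy =>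
        obtain ⟨l, rfl⟩ := hx
        obtain ⟨l', rfl⟩ := hy
        exact ⟨l ++ l', by simp⟩
      | inv x _ hx =>
        obtain ⟨l, rfl⟩ := hx
        exact exists_inv l
    obtain ⟨l, hl⟩ := key
    refine ⟨l.map gval, ?_, ?_⟩
    · intro s hs
      obtain ⟨x, -, rfl⟩ := List.mem_map.mp hs
      exact gval_mem x
    · apply Subtype.ext
      rw [coe_prod, hl]
  · intro n
    have h1 : 2 ^ ((n + 1) / 6) ≤ geodesicGrowth S n := by
      refine (growth_ge ((n + 1) / 6)).trans (growth_mono ?_)
      have := Nat.div_mul_le_self (n + 1) 6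
      omega
    have h2 : ((2 : ℝ) ^ (1 / 6 : ℝ)) ^ n = (2 : ℝ) ^ ((n : ℝ) / 6) := by
      rw [← Real.rpow_natCast, ← Real.rpow_mul (by norm_num)]
      congr 1
      ring
    have h3 : (n : ℝ) / 6 ≤ (((n + 1) / 6 + 1 : ℕ) : ℝ) := by
      rw [div_le_iff₀ (by norm_num)]
      have h4 : n ≤ ((n + 1) / 6 + 1) * 6 := by
        have := Nat.div_add_mod (n + 1) 6
        have := Nat.mod_lt (n + 1) (show 0 < 6 by norm_num)
        omega
      exact_mod_cast h4
    rw [h2]
    calc (2 : ℝ) ^ ((n : ℝ) / 6) ≤ (2 : ℝ) ^ ((((n + 1) / 6 + 1 : ℕ) : ℝ)) :=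
          Real.rpow_le_rpow_of_exponent_le (by norm_num) h3
      _ = 2 * (2 : ℝ) ^ ((n + 1) / 6) := by rw [Real.rpow_natCast, pow_succ]; ring
      _ ≤ 2 * (geodesicGrowth S n : ℝ) := by
          have h8 : ((2 ^ ((n + 1) / 6) : ℕ) : ℝ) ≤ (geodesicGrowth S n : ℝ) := by exact_mod_cast h1
          push_cast at h8
          linarith

end Pool.Agent.Results.MP_bf8038_al.FabrikowskiGupta
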